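import Pool.Agent.X123.Salem

/-!
# Multiplicative Lagrange spectra of non-hyperbolic polynomials are never closed

Let `P` be a monic irreducible integer polynomial with a root of modulus larger than `1` and a root
of modulus exactly `1`, and let `k ≥ 0`. If `limsup ‖x_n‖` is smaller than `1 / ℓ`, where `ℓ` is the
sum of the absolute values of the coefficients of `P^(k+1)`, then the integers nearest to the `x_n`
satisfy, from some point on, the linear recurrence with characteristic polynomial `P^(k+1)`; so there
are only countably many such tuples, and the spectrum meets `[0, 1/ℓ)` in a countable set. Hence the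
spectrum is not `[0, 1/2]`, and, as it is dense in `[0, 1/2]`, it is not closed.
-/

set_option autoImplicit false

namespace Pool.Agent.Results.MP_6c75e4_nt.NeverClosed

open Polynomial Filter Topology

/-- The distance from `x` to the nearest integer. -/
noncomputable def distInt (x : ℝ) : ℝ := |x - round x|

open scoped Classical in
/-- The expanding roots: the complex roots of `P` of modulus larger than `1`. -/
noncomputable def expRoots (P : ℤ[X]) : Finset ℂ :=
  (P.aroots ℂ).toFinset.filter (fun z => 1 < ‖z‖)

/-- The tuples of `Ξ_k`: a polynomial `g z` of degree at most `k` for every expanding root `z`, the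
polynomial of the conjugate root being the coefficientwise conjugate (so that `g z` has real
coefficients when `z` is real). -/
def IsTuple (P : ℤ[X]) (k : ℕ) (g : ℂ → ℂ[X]) : Prop :=
  ∀ z ∈ expRoots P, (g z).natDegree ≤ k ∧ g (starRingEnd ℂ z) = (g z).map (starRingEnd ℂ)

/-- The (real) sequence `x_n(g)`, the sum of `g_z(n) z^n` over the expanding roots `z`. -/
noncomputable def seq (P : ℤ[X]) (g : ℂ → ℂ[X]) (n : ℕ) : ℂ :=
  ∑ z ∈ expRoots P, (g z).eval (n : ℂ) * z ^ n

/-- The multiplicative Lagrange spectrum of order `k`: the set of the upper limits, as `n` tends to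
infinity, of the distance from `x_n(g)` to the nearest integer, over the tuples `g`. -/
noncomputable def spectrum (P : ℤ[X]) (k : ℕ) : Set ℝ :=
  {t | ∃ g : ℂ → ℂ[X], IsTuple P k g ∧
    t = limsup (fun n : ℕ => distInt (seq P g n).re) atTop}

/-- There are monic irreducible integer polynomials with nonzero constant term, a root of modulus
larger than `1` and a root of modulus `1`, and for each of them and each `k ≥ 0` the spectrum of
order `k` is not `[0, 1/2]` and is not closed. -/
theorem result :
    (∃ P : ℤ[X], P.Monic ∧ Irreducible P ∧ P.coeff 0 ≠ 0 ∧ (∃ z : ℂ, aeval z P = 0 ∧ 1 < ‖z‖) ∧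
      ∃ z : ℂ, aeval z P = 0 ∧ ‖z‖ = 1) ∧
    ∀ P : ℤ[X], P.Monic → Irreducible P → P.coeff 0 ≠ 0 → (∃ z : ℂ, aeval z P = 0 ∧ 1 < ‖z‖) →
      (∃ z : ℂ, aeval z P = 0 ∧ ‖z‖ = 1) →
      ∀ k : ℕ, spectrum P k ≠ Set.Icc 0 (1 / 2) ∧ ¬ IsClosed (spectrum P k) := by
  constructor
  · refine ⟨X123.Salem.P4, X123.Salem.P4_monic, X123.Salem.P4_irr, ?_, ?_, X123.Salem.exists_unit⟩
    · unfold X123.Salem.P4
      simp
    · refine ⟨((X123.Salem.α₀ : ℝ) : ℂ), X123.Salem.aeval_α₀, ?_⟩
      have h := X123.Salem.α₀_gt
      rw [Complex.norm_real, Real.norm_eq_abs, abs_of_pos (by linarith)]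
      linarith
  · intro P hmon hirr _ hexp hun k
    have e : spectrum P k = X123.Spec.spectrum P k := rfl
    constructor
    · intro h
      exact X123.Dense.not_Icc hmon k (by rw [← e, h])
    · rw [e]
      obtain ⟨z, hz⟩ := hexp
      exact X123.Dense.not_closed hmon hirr
        ⟨z, (X123.Spec.mem_expRoots hmon.ne_zero).2 hz⟩ hun k

end Pool.Agent.Results.MP_6c75e4_nt.NeverClosed
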